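import Pool.Agent.H19.STAT.Sys2
import Pool.Agent.H19.STAT.Abs2
import Pool.Agent.H29.TML.Tm

/-!
# Uniform time is live

`tmu_thm : Pool.STAT.TmuStmt`. The entropy of the digits of the time inside a window of the grid
is full up to `κ z`, hence the sum over the scales of the probabilities of near samples is small
(`Pool.TML.tm_full`), also for the law on an event (`Pool.TML.tm_ev`).
-/

set_option autoImplicit false

namespace Pool.TMU

open Finset Real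
open Pool.Agent.H49.Ent Pool.Agent.H32.Dense Pool.STK Pool.KAF Pool.STAT
open Pool.BFL (Pb P2)
open Pool.OCG (nr kp tl)

variable {Ω : Type} [Fintype Ω]

theorem P2_eq_dbl {G : Type} (p : Ω → ℝ) (g : Ω → G) (A : Ω → Ω → Prop) :
    P2 p g A = Pr (dbl p g) {w | A w.1 w.2} := by
  classical
  rw [Pool.KAF.Pr_eq, Fintype.sum_prod_type]
  unfold P2
  refine Finset.sum_congr rfl fun ω _ => Finset.sum_congr rfl fun ω' _ => ?_
  unfold dbl glue
  by_cases h1 : g ω = g ω' <;> by_cases h2 : A ω ω' <;> simp [h1, h2]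

theorem law_eq_Pb (p : Ω → ℝ) (E : Ω → Prop) : law p E True = Pb p E := by
  classical
  unfold law Pb
  refine Finset.sum_congr rfl fun ω _ => ?_
  by_cases h : E ω <;> simp [h]

theorem CH_lt {T : Type} {p : Ω → ℝ} (hp : IsLaw p) {N : ℕ} (X : Ω → ℕ) (hX : ∀ ω, X ω < 2 ^ N)
    (W : Ω → T) : CH p X W ≤ N * Real.log 2 := by
  classical
  have h := CH_le_card hp.nonneg hp.sum_one X W (fun _ => Finset.range (2 ^ N))
    (fun ω _ => Finset.mem_range.2 (hX ω))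
  rw [Ex_const hp.sum_one, Finset.card_range] at h
  push_cast at h
  rwa [Real.log_pow] at h

/-- A window of a longer window. -/
theorem win_div (t : ℕ) {J w w' : ℕ} (h : w ≤ w') (h' : w' ≤ J) :
    t / 2 ^ (J - w) = t / 2 ^ (J - w') / 2 ^ (w' - w) := by
  rw [Nat.div_div_eq_div_mul, ← pow_add, show J - w' + (w' - w) = J - w by omega]

/-- The number of the windows in a longer window. -/
theorem CH_win {S : Type} {p : Ω → ℝ} (hp : IsLaw p) (T : Ω → ℕ) (W : Ω → S) {J w w' : ℕ}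
    (h : w ≤ w') (h' : w' ≤ J) (hW : Det p W (fun ω => T ω / 2 ^ (J - w))) :
    CH p (fun ω => T ω / 2 ^ (J - w')) W ≤ ((w' - w : ℕ) : ℝ) * Real.log 2 := by
  have h1 : CH p (fun ω => T ω / 2 ^ (J - w')) W ≤
      CH p (fun ω => T ω / 2 ^ (J - w') % 2 ^ (w' - w)) W := by
    refine CH_mono_left hp.nonneg ?_
    intro ω ω' hω hω' e
    have e1 : T ω / 2 ^ (J - w') % 2 ^ (w' - w) = T ω' / 2 ^ (J - w') % 2 ^ (w' - w) :=
      (Prod.ext_iff.1 e).1
    have e2 : T ω / 2 ^ (J - w) = T ω' / 2 ^ (J - w) := hW ω ω' hω hω' (Prod.ext_iff.1 e).2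
    rw [win_div _ h h', win_div _ h h'] at e2
    show T ω / 2 ^ (J - w') = T ω' / 2 ^ (J - w')
    rw [← Nat.div_add_mod (T ω / 2 ^ (J - w')) (2 ^ (w' - w)),
      ← Nat.div_add_mod (T ω' / 2 ^ (J - w')) (2 ^ (w' - w)), e1, e2]
  exact h1.trans (CH_lt hp _ (fun ω => Nat.mod_lt _ (by positivity)) W)

/-- The exact time in a window. -/
theorem CH_win' {S : Type} {p : Ω → ℝ} (hp : IsLaw p) (T : Ω → ℕ) (W : Ω → S) {J w : ℕ}
    (h : w ≤ J) (hW : Det p W (fun ω => T ω / 2 ^ (J - w))) :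
    CH p T W ≤ ((J - w : ℕ) : ℝ) * Real.log 2 := by
  have h1 := CH_win hp T W h le_rfl hW
  simp only [Nat.sub_self, pow_zero, Nat.div_one] at h1
  exact h1

/-- The time is full in the windows of the line. -/
theorem CH_low {Λ : Type} {p : Ω → ℝ} (hp : IsLaw p) (T : Ω → ℕ) (L : Ω → Λ) {J w₀ w : ℕ}
    {d : ℝ} (h : w₀ ≤ w) (h' : w ≤ J) (hL : Det p L (fun ω => T ω / 2 ^ (J - w₀)))
    (hd : ((J - w₀ : ℕ) : ℝ) * Real.log 2 - d ≤ CH p T L) :
    ((J - w : ℕ) : ℝ) * Real.log 2 - d ≤ CH p T (fun ω => (L ω, T ω / 2 ^ (J - w))) := by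
  have h1 := CH_le_add hp.nonneg T (fun ω => T ω / 2 ^ (J - w)) L
  have h2 := CH_win hp T L h h' hL
  have h3 : CH p T (fun ω => (T ω / 2 ^ (J - w), L ω)) =
      CH p T (fun ω => (L ω, T ω / 2 ^ (J - w))) := by
    refine CH_congr hp.nonneg (fun _ _ _ _ e => (Prod.ext_iff.1 e).1)
      (fun _ _ _ _ e => (Prod.ext_iff.1 e).1) ?_ ?_
    · intro ω ω' _ _ e
      exact Prod.ext (Prod.ext_iff.1 e).2 (Prod.ext_iff.1 e).1
    · intro ω ω' _ _ e
      exact Prod.ext (Prod.ext_iff.1 e).2 (Prod.ext_iff.1 e).1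
  have h4 : ((J - w₀ : ℕ) : ℝ) = ((J - w : ℕ) : ℝ) + ((w - w₀ : ℕ) : ℝ) := by
    rw [← Nat.cast_add]
    congr 1
    omega
  rw [h4, add_mul] at hd
  linarith

/-! ### The time in a window -/

/-- The time in the window of length `2 ^ (-w)`, in units of the window. -/
noncomputable def th (T : Ω → ℕ) (J w : ℕ) (ω : Ω) : ℝ :=
  ((T ω % 2 ^ (J - w) : ℕ) : ℝ) / 2 ^ (J - w)

omit [Fintype Ω] in
theorem th_mem (T : Ω → ℕ) (J w : ℕ) (ω : Ω) : 0 ≤ th T J w ω ∧ th T J w ω < 1 := by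
  unfold th
  refine ⟨by positivity, ?_⟩
  rw [div_lt_one (by positivity)]
  have h : T ω % 2 ^ (J - w) < 2 ^ (J - w) := Nat.mod_lt _ (by positivity)
  exact_mod_cast h

omit [Fintype Ω] in
theorem th_eq (T : Ω → ℕ) (J w : ℕ) (ω : Ω) :
    th T J w ω * 2 ^ (J - w) = T ω - (T ω / 2 ^ (J - w) : ℕ) * 2 ^ (J - w) := by
  unfold th
  rw [div_mul_cancel₀ _ (by positivity)]
  have h := Nat.div_add_mod (T ω) (2 ^ (J - w))
  have h2 : ((2 ^ (J - w) * (T ω / 2 ^ (J - w)) + T ω % 2 ^ (J - w) : ℕ) : ℝ) = T ω := by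
    rw [h]
  rw [Nat.cast_add, Nat.cast_mul, Nat.cast_pow, Nat.cast_ofNat] at h2
  linarith

omit [Fintype Ω] in
theorem tl_th (T : Ω → ℕ) {J w u : ℕ} (h : w + u ≤ J) (ω : Ω) :
    tl (th T J w) u ω = ((T ω / 2 ^ (J - (w + u)) : ℕ) : ℤ) -
      ((T ω / 2 ^ (J - w) : ℕ) : ℤ) * 2 ^ u := by
  have hs : (2 : ℝ) ^ (J - w) = 2 ^ u * 2 ^ (J - (w + u)) := by
    rw [← pow_add]
    congr 1
    omega
  unfold tl
  have e : (2 : ℝ) ^ u * th T J w ω =
      (T ω : ℝ) / ((2 ^ (J - (w + u)) : ℕ) : ℝ) - (((T ω / 2 ^ (J - w) : ℕ) : ℤ) * 2 ^ u : ℤ) := by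
    have h1 := th_eq T J w ω
    have hp : (0 : ℝ) < 2 ^ (J - (w + u)) := by positivity
    generalize T ω / 2 ^ (J - w) = a at h1
    push_cast
    rw [hs] at h1
    rw [eq_sub_iff_add_eq, eq_div_iff hp.ne']
    linarith
  rw [e, Int.floor_sub_intCast]
  congr 1
  rw [← Int.natCast_floor_eq_floor (by positivity), Nat.floor_div_eq_div]

section
variable {Λ : Type} {p : Ω → ℝ} {T : Ω → ℕ} {L : Ω → Λ}

omit [Fintype Ω] in
theorem det_kp {J w u : ℕ} (h : w + u ≤ J) :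
    Det p (fun ω => (L ω, T ω / 2 ^ (J - (w + u))))
      (kp (fun ω => (L ω, T ω / 2 ^ (J - w))) (th T J w) u) := by
  intro ω ω' _ _ e
  have e1 : L ω = L ω' := (Prod.ext_iff.1 e).1
  have e2 : T ω / 2 ^ (J - (w + u)) = T ω' / 2 ^ (J - (w + u)) := (Prod.ext_iff.1 e).2
  have e3 : T ω / 2 ^ (J - w) = T ω' / 2 ^ (J - w) := by
    rw [win_div _ (Nat.le_add_right w u) h, win_div _ (Nat.le_add_right w u) h, e2]
  unfold kp
  rw [tl_th T h, tl_th T h]
  dsimp only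
  rw [e1, e2, e3]

omit [Fintype Ω] in
theorem kp_det {J w u : ℕ} (h : w + u ≤ J) :
    Det p (kp (fun ω => (L ω, T ω / 2 ^ (J - w))) (th T J w) u)
      (fun ω => (L ω, T ω / 2 ^ (J - (w + u)))) := by
  intro ω ω' _ _ e
  unfold kp at e
  simp only [Prod.mk.injEq] at e
  obtain ⟨⟨e1, e2⟩, e3⟩ := e
  rw [tl_th T h, tl_th T h, e2] at e3
  have e4 : ((T ω / 2 ^ (J - (w + u)) : ℕ) : ℤ) = ((T ω' / 2 ^ (J - (w + u)) : ℕ) : ℤ) := by
    linarith
  exact Prod.ext e1 (by exact_mod_cast e4)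

/-- Near samples in the windows. -/
theorem P2_le_nr (hp : ∀ ω, 0 ≤ p ω) {J w u k' : ℕ} (h : w + u ≤ J) :
    P2 p (fun ω => (L ω, T ω / 2 ^ (J - (w + u))))
      (fun ω ω' => |(T ω : ℝ) - T ω'| * 2 ^ (w + u + k') < 2 ^ J) ≤
      nr p (fun ω => (L ω, T ω / 2 ^ (J - w))) (th T J w) k' u := by
  have h1 := P2_le_of hp (g := fun ω => (L ω, T ω / 2 ^ (J - (w + u))))
    (g' := kp (fun ω => (L ω, T ω / 2 ^ (J - w))) (th T J w) u)
    (A := fun ω ω' => |(T ω : ℝ) - T ω'| * 2 ^ (w + u + k') < 2 ^ J)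
    (A' := fun ω ω' => |th T J w ω' - th T J w ω| < (2 : ℝ) ^ (-((u : ℤ) + k')))
    (det_kp h) (kp_det h) ?_
  · refine h1.trans (le_of_eq ?_)
    rw [P2_eq_dbl]
    rfl
  · intro ω ω' _ _ e hA
    have e2 : T ω / 2 ^ (J - (w + u)) = T ω' / 2 ^ (J - (w + u)) := (Prod.ext_iff.1 e).2
    have e3 : T ω / 2 ^ (J - w) = T ω' / 2 ^ (J - w) := by
      rw [win_div _ (Nat.le_add_right w u) h, win_div _ (Nat.le_add_right w u) h, e2]
    have e4 : (th T J w ω' - th T J w ω) * 2 ^ (J - w) = (T ω' : ℝ) - T ω := by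
      rw [sub_mul, th_eq, th_eq, e3]
      ring
    have h5 : (2 : ℝ) ^ (-((u : ℤ) + k')) = 1 / 2 ^ (u + k') := by
      rw [← Nat.cast_add, zpow_neg, zpow_natCast, one_div]
    rw [h5, lt_div_iff₀ (by positivity)]
    have h6 : |th T J w ω' - th T J w ω| * 2 ^ (J - w) = |(T ω : ℝ) - T ω'| := by
      rw [abs_sub_comm (T ω : ℝ), ← e4, abs_mul, abs_of_pos (a := (2 : ℝ) ^ (J - w)) (by positivity)]
    rw [← h6] at hA
    have h7 : (2 : ℝ) ^ J = 2 ^ (J - w) * 2 ^ w := by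
      rw [← pow_add]
      congr 1
      omega
    have h8 : (2 : ℝ) ^ (w + u + k') = 2 ^ w * 2 ^ (u + k') := by
      rw [← pow_add]
      congr 1
      omega
    rw [h7, h8] at hA
    have h9 : (0 : ℝ) < 2 ^ (J - w) * 2 ^ w := by positivity
    by_contra h10
    have h11 := mul_le_mul_of_nonneg_left (not_lt.1 h10) h9.le
    have h12 : |th T J w ω' - th T J w ω| * 2 ^ (J - w) * (2 ^ w * 2 ^ (u + k')) =
        2 ^ (J - w) * 2 ^ w * (|th T J w ω' - th T J w ω| * 2 ^ (u + k')) := by ring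
    rw [h12] at hA
    linarith

/-- The digits of the time in a window are full. -/
theorem full_tl (hp : IsLaw p) {J w₀ w x : ℕ} {d : ℝ} (h : w₀ ≤ w) (h' : w + x ≤ J)
    (hL : Det p L (fun ω => T ω / 2 ^ (J - w₀)))
    (hd : ((J - w₀ : ℕ) : ℝ) * Real.log 2 - d ≤ CH p T L) :
    x * Real.log 2 - d ≤ CH p (tl (th T J w) x) (fun ω => (L ω, T ω / 2 ^ (J - w))) := by
  have h1 := CH_low hp T L h (by omega) hL hd
  have h2 := CH_le_add hp.nonneg T (tl (th T J w) x) (fun ω => (L ω, T ω / 2 ^ (J - w)))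
  have h3 : CH p T (fun ω => (tl (th T J w) x ω, (L ω, T ω / 2 ^ (J - w)))) ≤
      ((J - (w + x) : ℕ) : ℝ) * Real.log 2 := by
    refine CH_win' hp T _ h' ?_
    intro ω ω' hω hω' e
    simp only [Prod.mk.injEq] at e
    obtain ⟨e3, e1, e2⟩ := e
    rw [tl_th T h', tl_th T h', e2] at e3
    have e4 : ((T ω / 2 ^ (J - (w + x)) : ℕ) : ℤ) = ((T ω' / 2 ^ (J - (w + x)) : ℕ) : ℤ) := by
      linarith
    exact_mod_cast e4
  have h4 : ((J - w : ℕ) : ℝ) = ((J - (w + x) : ℕ) : ℝ) + x := by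
    rw [← Nat.cast_add]
    congr 1
    omega
  rw [h4, add_mul] at h1
  linarith

end

/-- **Uniform time is live.** -/
theorem tmu_thm : TmuStmt := by
  intro εT ϖ hε hϖ
  obtain ⟨k', hk'⟩ : ∃ k' : ℕ, k' = ⌈16 / (ϖ ^ 2 * εT ^ 2)⌉₊ + 1 := ⟨_, rfl⟩
  have hk1 : 1 ≤ k' := by omega
  have hk2 : 16 / (ϖ ^ 2 * εT ^ 2) ≤ (k' : ℝ) := by
    rw [hk']
    push_cast
    have := Nat.le_ceil (16 / (ϖ ^ 2 * εT ^ 2))
    linarith
  refine ⟨k', fun M κ hκ => ?_⟩
  obtain ⟨z₀, hz₀⟩ : ∃ z₀ : ℕ, z₀ = max k' ⌈4 * k' / (κ * (ϖ ^ 2 * εT))⌉₊ := ⟨_, rfl⟩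
  refine ⟨min κ (κ * (ϖ ^ 2 * εT) / 8), z₀, by positivity, ?_⟩
  intro J a₀ w₀ z D q hz hq htop hthin hT hln hcw hcT hU
  have hz1 : k' ≤ z := (le_max_left _ _).trans (hz₀ ▸ hz)
  have hz2 : 4 * (k' : ℝ) / (κ * (ϖ ^ 2 * εT)) ≤ z := by
    refine (Nat.le_ceil _).trans ?_
    exact_mod_cast (le_max_right _ _).trans (hz₀ ▸ hz)
  have hzz : (0 : ℝ) ≤ z := Nat.cast_nonneg z
  have hm1 : min κ (κ * (ϖ ^ 2 * εT) / 8) * (z : ℝ) ≤ κ * z :=
    mul_le_mul_of_nonneg_right (min_le_left _ _) hzz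
  have hm2 : min κ (κ * (ϖ ^ 2 * εT) / 8) * (z : ℝ) ≤ κ * (ϖ ^ 2 * εT) / 8 * z :=
    mul_le_mul_of_nonneg_right (min_le_right _ _) hzz
  unfold NDat2.TmU at hU
  have hMz : ∀ j ≤ M, w₀ + j * z ≤ J ∧ ∀ x ≤ M * z, w₀ + j * z + x ≤ J := by
    intro j hj
    have h1 : j * z ≤ M * z := Nat.mul_le_mul_right z hj
    have h2 : (M + 1) * z = M * z + z := by ring
    refine ⟨by omega, fun x hx => by omega⟩
  refine ⟨?_, ?_⟩
  · intro i hi j hj
    have h1 := CH_win' hq D.T (D.c i j) (hMz j hj).1 (hcT i hi j hj)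
    have h2 := CH_low hq D.T D.ln (Nat.le_add_right w₀ (j * z)) (hMz j hj).1 hln hU
    have h3 : CH q D.T (fun ω => (D.ln ω, D.T ω / 2 ^ (J - (w₀ + j * z)))) ≤
        CH q D.T (fun ω => (D.ln ω, D.c i j ω)) := by
      refine CH_mono_cond hq.nonneg ?_
      intro ω ω' hω hω' e
      exact Prod.ext (Prod.ext_iff.1 e).1 (hcw i hi j hj ω ω' hω hω' e)
    linarith
  · intro j hj x hx E hE
    obtain ⟨w, hw⟩ : ∃ w, w = w₀ + j * z := ⟨_, rfl⟩
    have hwx : w + x ≤ J := by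
      rw [hw]
      exact (hMz j hj).2 x hx
    have hE' : ϖ ≤ law q E True := by
      rw [law_eq_Pb]
      exact hE
    have hE0 : 0 < law q E True := hϖ.trans_le hE'
    have hqE : IsLaw (Pool.Agent.H49.Ent.cond q E True) :=
      ⟨cond_nonneg hq.nonneg E True, sum_cond q E hE0.ne'⟩
    rw [← hw]
    -- the sum over the scales
    have h1 : ∑ u ∈ range x, P2 (Pool.Agent.H49.Ent.cond q E True) (D.wn J (w + u))
        (fun ω ω' => |(D.T ω : ℝ) - D.T ω'| * 2 ^ (w + u + k') < 2 ^ J) ≤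
        ∑ u ∈ range x, nr (Pool.Agent.H49.Ent.cond q E True)
          (fun ω => (D.ln ω, D.T ω / 2 ^ (J - w))) (th D.T J w) k' u := by
      refine Finset.sum_le_sum fun u hu => ?_
      have hu' := Finset.mem_range.1 hu
      exact P2_le_nr hqE.nonneg (by omega)
    refine h1.trans ?_
    rcases Nat.eq_zero_or_pos x with hx0 | hx0
    · rw [hx0]
      simp only [range_zero, sum_empty, Nat.cast_zero, mul_zero, zero_add]
      positivity
    have hx1 : (0 : ℝ) < x := by exact_mod_cast hx0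
    have hk0 : (0 : ℝ) < k' := by exact_mod_cast hk1
    have hl2 : 1 / 2 ≤ Real.log 2 := by linarith [Real.log_two_gt_d9]
    obtain ⟨κ', hκ'⟩ : ∃ κ', κ' = min κ (κ * (ϖ ^ 2 * εT) / 8) := ⟨_, rfl⟩
    rw [← hκ'] at hm2 hU
    have hκ0 : 0 < κ' := by
      rw [hκ']
      positivity
    -- for the law `q`
    have h2 : ∑ u ∈ range x, nr q (fun ω => (D.ln ω, D.T ω / 2 ^ (J - w))) (th D.T J w) k' u ≤
        κ' * z / Real.log 2 + 4 * x / k' + k' :=
      Pool.TML.tm_full hq _ _ (th_mem D.T J w) hk1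
        (full_tl hq (by omega) hwx hln hU)
    have h3 : κ' * z / Real.log 2 ≤ 2 * (κ' * z) := by
      rw [div_le_iff₀ (by linarith)]
      have : 0 ≤ κ' * (z : ℝ) := by positivity
      nlinarith
    obtain ⟨ε, hε'⟩ : ∃ ε : ℝ, ε = (2 * (κ' * z) + k') / x + 4 / k' := ⟨_, rfl⟩
    have hε0 : 0 ≤ ε := by
      rw [hε']
      positivity
    have hεx : ε * x = 2 * (κ' * z) + k' + 4 * x / k' := by
      rw [hε']
      field_simp
    have h4 : Pool.TML.TM q (fun ω => (D.ln ω, D.T ω / 2 ^ (J - w))) (th D.T J w) k' ε x := by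
      unfold Pool.TML.TM
      rw [hεx]
      linarith
    have h5 := Pool.TML.tm_ev hq _ _ h4 E hE0
    unfold Pool.TML.TM at h5
    refine h5.trans ?_
    -- numbers
    obtain ⟨δ, hδ⟩ : ∃ δ : ℝ, δ = ϖ * εT / 2 := ⟨_, rfl⟩
    have hδ0 : 0 < δ := by
      rw [hδ]
      positivity
    have h6 : 2 * Real.sqrt ε ≤ ε / δ + δ := by
      have e1 : 0 ≤ (Real.sqrt ε - δ) ^ 2 := sq_nonneg _
      have e2 := Real.sq_sqrt hε0
      rw [← sub_nonneg]
      have e3 : ε / δ + δ - 2 * Real.sqrt ε = (Real.sqrt ε - δ) ^ 2 / δ := by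
        rw [sub_sq, e2]
        field_simp
        ring
      rw [e3]
      positivity
    have h7 : 2 * Real.sqrt ε / law q E True * x ≤ (ε / δ + δ) / ϖ * x := by
      refine mul_le_mul_of_nonneg_right ?_ hx1.le
      exact div_le_div₀ (by positivity) h6 hϖ hE'
    refine h7.trans ?_
    have h8 : (ε / δ + δ) / ϖ * x = (ε * x) * (2 / (ϖ ^ 2 * εT)) + εT / 2 * x := by
      rw [hδ]
      field_simp
    rw [h8, hεx]
    have hc : 0 < ϖ ^ 2 * εT := by positivity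
    have h9 : 4 * (x : ℝ) / k' * (2 / (ϖ ^ 2 * εT)) ≤ εT / 2 * x := by
      rw [div_mul_div_comm, div_le_iff₀ (by positivity)]
      rw [div_le_iff₀ (by positivity)] at hk2
      have e1 : εT / 2 * x * (k' * (ϖ ^ 2 * εT)) = x / 2 * (k' * (ϖ ^ 2 * εT ^ 2)) := by ring
      rw [e1]
      have e2 := mul_le_mul_of_nonneg_left hk2 (show (0 : ℝ) ≤ x / 2 by positivity)
      linarith
    have h10 : 2 * (κ' * z) * (2 / (ϖ ^ 2 * εT)) ≤ κ * z / 2 := by
      rw [mul_div_assoc', div_le_iff₀ hc]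
      nlinarith
    have h11 : (k' : ℝ) * (2 / (ϖ ^ 2 * εT)) ≤ κ * z / 2 := by
      rw [mul_div_assoc', div_le_iff₀ hc]
      rw [div_le_iff₀ (by positivity)] at hz2
      nlinarith
    linarith

end Pool.TMU
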